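import Mathlib

/-!
Partial congruence partitions and the number `T(G)` (problem MP_47f3f4_co): definitions and
basic facts.
-/

namespace Pool.Agent.Helper19.PCP

open scoped Classical

/-- `𝒰` is a partial congruence partition of order `s` in `G`: a finite set of subgroups of
order `s`, any two distinct ones intersecting trivially. -/
def IsPCP {G : Type*} [Group G] (s : ℕ) (𝒰 : Finset (Subgroup G)) : Prop :=
  (∀ U ∈ 𝒰, Nat.card U = s) ∧ ∀ U ∈ 𝒰, ∀ V ∈ 𝒰, U ≠ V → U ⊓ V = ⊥

/-- For a finite group `G` of order `s ^ 2`, `T G` is the largest degree (number of members) of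
a partial congruence partition of order `s` in `G`. -/
noncomputable def T (G : Type*) [Group G] : ℕ :=
  sSup {r | ∃ 𝒰 : Finset (Subgroup G), 𝒰.card = r ∧ IsPCP (Nat.sqrt (Nat.card G)) 𝒰}

section

variable {G : Type*} [Group G]

theorem sqrt_card_prod (P : Type*) [Group P] : Nat.sqrt (Nat.card (P × P)) = Nat.card P := by
  rw [Nat.card_prod, Nat.sqrt_eq]

theorem bddAbove [Finite G] (s : ℕ) :
    BddAbove {r | ∃ 𝒰 : Finset (Subgroup G), 𝒰.card = r ∧ IsPCP s 𝒰} := by
  classical
  have : Fintype (Subgroup G) := Fintype.ofFinite _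
  refine ⟨Fintype.card (Subgroup G), ?_⟩
  rintro r ⟨𝒰, rfl, _⟩
  exact Finset.card_le_univ _

theorem T_le [Finite G] {n : ℕ}
    (h : ∀ 𝒰 : Finset (Subgroup G), IsPCP (Nat.sqrt (Nat.card G)) 𝒰 → 𝒰.card ≤ n) : T G ≤ n := by
  unfold T
  apply csSup_le
  · exact ⟨0, ∅, rfl, by simp [IsPCP]⟩
  · rintro r ⟨𝒰, rfl, hU⟩
    exact h 𝒰 hU

theorem le_T [Finite G] (𝒰 : Finset (Subgroup G)) (h : IsPCP (Nat.sqrt (Nat.card G)) 𝒰) :
    𝒰.card ≤ T G :=
  le_csSup (bddAbove _) ⟨𝒰, rfl, h⟩

end

section Prod

variable {P : Type*} [Group P]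

theorem T_prod_le [Finite P] {n : ℕ}
    (h : ∀ 𝒰 : Finset (Subgroup (P × P)), IsPCP (Nat.card P) 𝒰 → 𝒰.card ≤ n) :
    T (P × P) ≤ n := by
  apply T_le
  rw [sqrt_card_prod]
  exact h

theorem le_T_prod [Finite P] (𝒰 : Finset (Subgroup (P × P))) (h : IsPCP (Nat.card P) 𝒰) :
    𝒰.card ≤ T (P × P) := by
  apply le_T
  rw [sqrt_card_prod]
  exact h

/-- the graph of an endomorphism -/
def graph (f : P →* P) : Subgroup (P × P) := (MonoidHom.prod (MonoidHom.id P) f).range

theorem mem_graph (f : P →* P) (x : P × P) : x ∈ graph f ↔ x.2 = f x.1 := by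
  unfold graph
  rw [MonoidHom.mem_range]
  constructor
  · rintro ⟨y, rfl⟩; rfl
  · intro h
    exact ⟨x.1, by ext <;> simp [h]⟩

theorem card_graph (f : P →* P) : Nat.card (graph f) = Nat.card P := by
  refine Nat.card_congr (Equiv.ofBijective (fun x : graph f => x.1.1) ⟨?_, ?_⟩)
  · rintro ⟨⟨a, b⟩, h⟩ ⟨⟨a', b'⟩, h'⟩ heq
    rw [mem_graph] at h h'
    simp only at heq h h'
    subst heq
    rw [← h] at h'
    subst h'
    rfl
  · intro a
    exact ⟨⟨(a, f a), by rw [mem_graph]⟩, rfl⟩

/-- the second factor -/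
def vert (P : Type*) [Group P] : Subgroup (P × P) := (MonoidHom.fst P P).ker

theorem mem_vert (x : P × P) : x ∈ vert P ↔ x.1 = 1 := by
  unfold vert; rw [MonoidHom.mem_ker]; rfl

theorem card_vert : Nat.card (vert P) = Nat.card P := by
  refine Nat.card_congr (Equiv.ofBijective (fun x : vert P => x.1.2) ⟨?_, ?_⟩)
  · rintro ⟨⟨a, b⟩, h⟩ ⟨⟨a', b'⟩, h'⟩ heq
    rw [mem_vert] at h h'
    simp only at heq h h'
    subst h h' heq
    rfl
  · intro a
    exact ⟨⟨(1, a), by rw [mem_vert]⟩, rfl⟩

/-- A finite family of endomorphisms of `P` any two of which agree only at `1`, together with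
the second factor, is a partial congruence partition. -/
theorem card_add_one_le_T [Finite P] [Nontrivial P] {ι : Type*} [Fintype ι] (f : ι → (P →* P))
    (hf : ∀ i j, i ≠ j → ∀ x, f i x = f j x → x = 1) : Fintype.card ι + 1 ≤ T (P × P) := by
  classical
  have hinj : Function.Injective (fun i => graph (f i)) := by
    intro i j h
    by_contra hij
    obtain ⟨x, hx⟩ := exists_ne (1 : P)
    apply hx
    apply hf i j hij
    have : ((x, f i x) : P × P) ∈ graph (f i) := by rw [mem_graph]
    have h' : graph (f i) = graph (f j) := h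
    rw [h', mem_graph] at this
    exact this
  have hnot : vert P ∉ (Finset.univ.image (fun i => graph (f i))) := by
    intro h
    rw [Finset.mem_image] at h
    obtain ⟨i, _, hi⟩ := h
    obtain ⟨x, hx⟩ := exists_ne (1 : P)
    have : ((1, x) : P × P) ∈ graph (f i) := by rw [hi, mem_vert]
    rw [mem_graph] at this
    simp at this
    exact hx this
  have hcard : (insert (vert P) (Finset.univ.image (fun i => graph (f i)))).card
      = Fintype.card ι + 1 := by
    rw [Finset.card_insert_of_notMem hnot, Finset.card_image_of_injective _ hinj,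
      Finset.card_univ]
  rw [← hcard]
  apply le_T_prod
  have hvg : ∀ i, vert P ⊓ graph (f i) = ⊥ := by
    intro i
    rw [eq_bot_iff]
    rintro ⟨a, b⟩ h
    rw [Subgroup.mem_inf, mem_vert, mem_graph] at h
    simp only at h
    obtain ⟨h1, h2⟩ := h
    subst h1
    rw [map_one] at h2
    subst h2
    exact Subgroup.mem_bot.mpr rfl
  refine ⟨?_, ?_⟩
  · intro U hU
    rw [Finset.mem_insert, Finset.mem_image] at hU
    rcases hU with rfl | ⟨i, _, rfl⟩
    · exact card_vert
    · exact card_graph _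
  · intro U hU V hV hne
    rw [Finset.mem_insert, Finset.mem_image] at hU hV
    rcases hU with rfl | ⟨i, _, rfl⟩
    · rcases hV with rfl | ⟨j, _, rfl⟩
      · exact absurd rfl hne
      · exact hvg j
    · rcases hV with rfl | ⟨j, _, rfl⟩
      · rw [inf_comm]; exact hvg i
      · rw [eq_bot_iff]
        rintro ⟨a, b⟩ h
        rw [Subgroup.mem_inf, mem_graph, mem_graph] at h
        simp only at h
        obtain ⟨h1, h2⟩ := h
        have hij : i ≠ j := fun e => hne (by rw [e])
        have ha : a = 1 := hf i j hij a (h1.symm.trans h2)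
        subst ha
        rw [map_one] at h1
        subst h1
        exact Subgroup.mem_bot.mpr rfl

/-- `T(P × P) ≥ 3` for every nontrivial finite group. -/
theorem three_le_T [Finite P] [Nontrivial P] : 3 ≤ T (P × P) := by
  have := card_add_one_le_T (P := P) (ι := Bool) (fun b => if b then 1 else MonoidHom.id P) (by
    intro i j hij x hx
    cases i <;> cases j <;> simp_all)
  simpa using this

end Prod

/-- Counting lemma: a family of pairwise trivially intersecting subgroups each of which meets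
the finite subgroup `N` in at least `m` elements satisfies `r (m - 1) ≤ |N| - 1`. -/
theorem card_mul_le {G : Type*} [Group G] [Finite G] (𝒰 : Finset (Subgroup G))
    (hdisj : ∀ U ∈ 𝒰, ∀ V ∈ 𝒰, U ≠ V → U ⊓ V = ⊥) (N : Subgroup G) (m : ℕ)
    (hm : ∀ U ∈ 𝒰, m ≤ Nat.card (U ⊓ N : Subgroup G)) :
    𝒰.card * (m - 1) ≤ Nat.card N - 1 := by
  classical
  have : Fintype G := Fintype.ofFinite G
  -- the sets `(U ⊓ N) \ {1}`
  let s : Subgroup G → Finset G := fun U => (Finset.univ.filter (fun g => g ∈ U ⊓ N)).erase 1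
  have hs : ∀ U : Subgroup G, (s U).card = Nat.card (U ⊓ N : Subgroup G) - 1 := by
    intro U
    simp only [s]
    rw [Finset.card_erase_of_mem (by simp [Subgroup.one_mem])]
    congr 1
    rw [Nat.card_eq_fintype_card, Fintype.card_subtype]
  have hd : (𝒰 : Set (Subgroup G)).PairwiseDisjoint s := by
    intro U hU V hV hne
    rw [Function.onFun, Finset.disjoint_left]
    intro g hgU hgV
    simp only [s, Finset.mem_erase, Finset.mem_filter, Finset.mem_univ, true_and] at hgU hgV
    have : g ∈ U ⊓ V := ⟨hgU.2.1, hgV.2.1⟩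
    rw [hdisj U hU V hV hne, Subgroup.mem_bot] at this
    exact hgU.1 this
  have h1 : (𝒰.biUnion s).card = ∑ U ∈ 𝒰, (s U).card := Finset.card_biUnion hd
  have h2 : 𝒰.biUnion s ⊆ (Finset.univ.filter (fun g => g ∈ N)).erase 1 := by
    intro g hg
    rw [Finset.mem_biUnion] at hg
    obtain ⟨U, _, hgU⟩ := hg
    simp only [s, Finset.mem_erase, Finset.mem_filter, Finset.mem_univ, true_and] at hgU ⊢
    exact ⟨hgU.1, hgU.2.2⟩
  have h3 : ((Finset.univ.filter (fun g => g ∈ N)).erase 1).card = Nat.card N - 1 := by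
    rw [Finset.card_erase_of_mem (by simp [Subgroup.one_mem])]
    congr 1
    rw [Nat.card_eq_fintype_card, Fintype.card_subtype]
  calc 𝒰.card * (m - 1) = ∑ U ∈ 𝒰, (m - 1) := by rw [Finset.sum_const, smul_eq_mul]
    _ ≤ ∑ U ∈ 𝒰, (s U).card := by
        apply Finset.sum_le_sum
        intro U hU
        rw [hs U]
        exact Nat.sub_le_sub_right (hm U hU) 1
    _ = (𝒰.biUnion s).card := h1.symm
    _ ≤ _ := Finset.card_le_card h2
    _ = Nat.card N - 1 := h3

end Pool.Agent.Helper19.PCP
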