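import Pool.Agent.Helper19.PCP

namespace Pool.Agent.Helper19.PCP

open scoped Classical

theorem isComplement_of_mem {G : Type*} [Group G] [Finite G] {s : ℕ} (hs : s * s = Nat.card G)
    {𝒰 : Finset (Subgroup G)} (h : IsPCP s 𝒰) {U V : Subgroup G} (hU : U ∈ 𝒰) (hV : V ∈ 𝒰)
    (hne : U ≠ V) : Subgroup.IsComplement' U V := by
  apply Subgroup.isComplement'_of_card_mul_and_disjoint
  · rw [h.1 U hU, h.1 V hV, hs]
  · rw [disjoint_iff]; exact h.2 U hU V hV hne

/-- factorization -/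
theorem exists_mul {G : Type*} [Group G] {U V : Subgroup G} (h : Subgroup.IsComplement' U V)
    (g : G) : ∃ u ∈ U, ∃ v ∈ V, u * v = g := by
  obtain ⟨⟨⟨u, hu⟩, ⟨v, hv⟩⟩, hx⟩ := h.2 g
  exact ⟨u, hu, v, hv, hx⟩

theorem card_le_sqrt_add_one {Q : Type*} [Group Q] [Finite Q] [Nontrivial Q]
    (𝒴 : Finset (Subgroup Q))
    (h : ∀ U ∈ 𝒴, ∀ V ∈ 𝒴, U ≠ V → U ⊓ V = ⊥ ∧ Nat.card U * Nat.card V = Nat.card Q) :
    𝒴.card ≤ Nat.sqrt (Nat.card Q) + 1 := by
  have hQ1 : 1 < Nat.card Q := Finite.one_lt_card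
  have hQ2 : 1 ≤ Nat.sqrt (Nat.card Q) := Nat.le_sqrt.mpr (by omega)
  rcases Nat.lt_or_ge 𝒴.card 3 with h3 | h3
  · omega
  · obtain ⟨A, B, C, hA, hB, hC, hAB, hAC, hBC⟩ := Finset.two_lt_card_iff.mp h3
    have e1 := (h A hA B hB hAB).2
    have e2 := (h A hA C hC hAC).2
    have e3 := (h B hB C hC hBC).2
    have hApos : 0 < Nat.card A := Nat.card_pos
    have hBpos : 0 < Nat.card B := Nat.card_pos
    have hBC' : Nat.card B = Nat.card C := Nat.eq_of_mul_eq_mul_left hApos (e1.trans e2.symm)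
    rw [← hBC'] at e3
    have hAB' : Nat.card A = Nat.card B := Nat.eq_of_mul_eq_mul_right hBpos (e1.trans e3.symm)
    set n := Nat.card B with hn
    have hsq : Nat.sqrt (Nat.card Q) = n := by rw [← e3, Nat.sqrt_eq]
    have hall : ∀ U ∈ 𝒴, Nat.card U = n := by
      intro U hU
      by_cases hUB : U = B
      · rw [hUB]
      · have := (h U hU B hB hUB).2
        rw [← e3] at this
        exact Nat.eq_of_mul_eq_mul_right hBpos this
    have hn1 : 1 < n := by
      by_contra hc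
      have : n = 1 := by omega
      rw [this] at e3
      omega
    have := card_mul_le 𝒴 (fun U hU V hV hne => (h U hU V hV hne).1) ⊤ n (by
      intro U hU
      rw [inf_top_eq, hall U hU])
    rw [Subgroup.card_top, ← e3] at this
    rw [hsq]
    have h5 : n * n - 1 = (n + 1) * (n - 1) := by
      have h6 : ∀ k : ℕ, 1 < k → k * k - 1 = (k + 1) * (k - 1) := by
        intro k hk
        obtain ⟨m, rfl⟩ : ∃ m, k = m + 1 := ⟨k - 1, by omega⟩
        simp only [Nat.add_sub_cancel]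
        have : (m + 1) * (m + 1) = (m + 1 + 1) * m + 1 := by ring
        omega
      exact h6 n hn1
    rw [h5] at this
    exact Nat.le_of_mul_le_mul_right this (by omega)

section

variable {P : Type*} [Group P]

/-- the image of `π₂(U)` in `P / Z(P)` -/
def Y (U : Subgroup (P × P)) : Subgroup (P ⧸ Subgroup.center P) :=
  (U.map (MonoidHom.snd P P)).map (QuotientGroup.mk' (Subgroup.center P))

theorem mem_Y (U : Subgroup (P × P)) (x : P) :
    (x : P ⧸ Subgroup.center P) ∈ Y U ↔ ∃ u ∈ U, ∃ z ∈ Subgroup.center P, x = u.2 * z := by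
  unfold Y
  rw [Subgroup.mem_map]
  constructor
  · rintro ⟨y, hy, hyx⟩
    rw [Subgroup.mem_map] at hy
    obtain ⟨u, hu, rfl⟩ := hy
    rw [QuotientGroup.mk'_apply, QuotientGroup.eq] at hyx
    exact ⟨u, hu, _, hyx, by simp⟩
  · rintro ⟨u, hu, z, hz, rfl⟩
    refine ⟨u.2, Subgroup.mem_map.mpr ⟨u, hu, rfl⟩, ?_⟩
    rw [QuotientGroup.mk'_apply, QuotientGroup.eq]
    simpa using hz

theorem Y_compl [Finite P] {U V : Subgroup (P × P)} (h : Subgroup.IsComplement' U V)
    (hU : ∀ a ∈ U, ∀ b ∈ U, a.2 * b.2 = b.2 * a.2)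
    (hV : ∀ a ∈ V, ∀ b ∈ V, a.2 * b.2 = b.2 * a.2) :
    Subgroup.IsComplement' (Y U) (Y V) := by
  apply Subgroup.isComplement'_of_disjoint_and_mul_eq_univ
  · rw [disjoint_iff, eq_bot_iff]
    intro q hq
    obtain ⟨x, rfl⟩ := QuotientGroup.mk_surjective q
    rw [Subgroup.mem_inf, mem_Y, mem_Y] at hq
    obtain ⟨⟨u, hu, z, hz, hxu⟩, ⟨v, hv, z', hz', hxv⟩⟩ := hq
    rw [Subgroup.mem_bot, QuotientGroup.eq_one_iff, Subgroup.mem_center_iff]
    intro g
    obtain ⟨a, ha, b, hb, hab⟩ := exists_mul h ((1 : P), g)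
    have hg : g = a.2 * b.2 := by rw [← Prod.snd_mul, hab]
    rw [Subgroup.mem_center_iff] at hz hz'
    have h1 : a.2 * x = x * a.2 := by
      rw [hxu, ← mul_assoc, hU a ha u hu, mul_assoc, hz a.2, mul_assoc]
    have h2 : b.2 * x = x * b.2 := by
      rw [hxv, ← mul_assoc, hV b hb v hv, mul_assoc, hz' b.2, mul_assoc]
    rw [hg, mul_assoc, h2, ← mul_assoc, h1, mul_assoc]
  · rw [Set.eq_univ_iff_forall]
    intro q
    obtain ⟨x, rfl⟩ := QuotientGroup.mk_surjective q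
    obtain ⟨a, ha, b, hb, hab⟩ := exists_mul h ((1 : P), x)
    have hx : x = a.2 * b.2 := by rw [← Prod.snd_mul, hab]
    rw [Set.mem_mul]
    refine ⟨(a.2 : P ⧸ Subgroup.center P), (mem_Y U a.2).mpr ⟨a, ha, 1, one_mem _, by simp⟩,
      (b.2 : P ⧸ Subgroup.center P), (mem_Y V b.2).mpr ⟨b, hb, 1, one_mem _, by simp⟩, ?_⟩
    rw [hx, QuotientGroup.mk_mul]

/-- The number of components with abelian second projection. -/
theorem card_abelian_le [Finite P] (hna : ∃ a b : P, a * b ≠ b * a)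
    (𝒰 : Finset (Subgroup (P × P))) (h : IsPCP (Nat.card P) 𝒰) :
    (𝒰.filter (fun U => ∀ a ∈ U, ∀ b ∈ U, a.2 * b.2 = b.2 * a.2)).card ≤
      Nat.sqrt (Subgroup.center P).index + 1 := by
  have hnt : Nontrivial (P ⧸ Subgroup.center P) := by
    obtain ⟨a, b, hab⟩ := hna
    refine ⟨(a : P ⧸ Subgroup.center P), 1, ?_⟩
    intro hc
    rw [QuotientGroup.eq_one_iff, Subgroup.mem_center_iff] at hc
    exact hab (hc b).symm
  set F := 𝒰.filter (fun U => ∀ a ∈ U, ∀ b ∈ U, a.2 * b.2 = b.2 * a.2) with hF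
  have hs : Nat.card P * Nat.card P = Nat.card (P × P) := by rw [Nat.card_prod]
  have hcompl : ∀ U ∈ F, ∀ V ∈ F, U ≠ V → Subgroup.IsComplement' (Y U) (Y V) := by
    intro U hU V hV hne
    rw [hF, Finset.mem_filter] at hU hV
    exact Y_compl (isComplement_of_mem hs h hU.1 hV.1 hne) hU.2 hV.2
  have hinj : Set.InjOn Y (F : Set (Subgroup (P × P))) := by
    intro U hU V hV hUV
    by_contra hne
    have h1 := hcompl U hU V hV hne
    rw [← hUV] at h1
    have h2 := h1.disjoint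
    rw [disjoint_self] at h2
    have h3 := h1.card_mul_card
    rw [h2, Subgroup.card_bot] at h3
    have := Finite.one_lt_card (α := P ⧸ Subgroup.center P)
    omega
  rw [← Finset.card_image_of_injOn hinj, Subgroup.index]
  apply card_le_sqrt_add_one
  intro A hA B hB hne
  rw [Finset.mem_image] at hA hB
  obtain ⟨U, hU, rfl⟩ := hA
  obtain ⟨V, hV, rfl⟩ := hB
  have hne' : U ≠ V := fun e => hne (by rw [e])
  have := hcompl U hU V hV hne'
  exact ⟨disjoint_iff.mp this.disjoint, this.card_mul_card⟩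

/-- conjugates of distinct components meet trivially -/
theorem conj_inf [Finite P] {𝒰 : Finset (Subgroup (P × P))} (h : IsPCP (Nat.card P) 𝒰)
    {U V : Subgroup (P × P)} (hU : U ∈ 𝒰) (hV : V ∈ 𝒰) (hne : U ≠ V) {x y : P × P}
    (hx : x ∈ U) (hy : y ∈ V) (hxy : IsConj x y) : x = 1 := by
  have hs : Nat.card P * Nat.card P = Nat.card (P × P) := by rw [Nat.card_prod]
  obtain ⟨g, hg⟩ := isConj_iff.mp hxy
  obtain ⟨v, hv, u, hu, hvu⟩ := exists_mul (isComplement_of_mem hs h hV hU hne.symm) g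
  have h1 : u * x * u⁻¹ ∈ U := U.mul_mem (U.mul_mem hu hx) (U.inv_mem hu)
  have h2 : u * x * u⁻¹ ∈ V := by
    have : u * x * u⁻¹ = v⁻¹ * y * v := by
      rw [← hg, ← hvu]; group
    rw [this]
    exact V.mul_mem (V.mul_mem (V.inv_mem hv) hy) hv
  have h3 : u * x * u⁻¹ ∈ U ⊓ V := ⟨h1, h2⟩
  rw [h.2 U hU V hV hne, Subgroup.mem_bot] at h3
  have : x = u⁻¹ * (u * x * u⁻¹) * u := by group
  rw [this, h3]; group

/-- In a `p`-group, `y ^ j` and `y ^ l` (`1 ≤ j, l < p`, `y ≠ 1`) are conjugate only if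
`j = l`. -/
theorem pow_conj {p : ℕ} [Fact p.Prime] [Finite P] (hP : IsPGroup p P) {y : P} (hy : y ≠ 1)
    {j l : ℕ} (hj : j < p) (hl : l < p) (h : IsConj (y ^ j) (y ^ l)) : j = l := by
  obtain ⟨g, hg⟩ := isConj_iff.mp h
  have key : ∀ n : ℕ, g ^ n * y ^ (j ^ n) * (g ^ n)⁻¹ = y ^ (l ^ n) := by
    intro n
    induction n with
    | zero => simp
    | succ n ih =>
      calc g ^ (n + 1) * y ^ (j ^ (n + 1)) * (g ^ (n + 1))⁻¹
          = g * (g ^ n * y ^ (j ^ n) * (g ^ n)⁻¹) ^ j * g⁻¹ := by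
            rw [conj_pow, pow_succ' g n, pow_succ j n, pow_mul]; group
        _ = g * (y ^ j) ^ (l ^ n) * g⁻¹ := by
            rw [ih, ← pow_mul, ← pow_mul, mul_comm]
        _ = (g * y ^ j * g⁻¹) ^ (l ^ n) := by rw [conj_pow]
        _ = y ^ (l ^ (n + 1)) := by rw [hg, ← pow_mul, pow_succ' l n]
  obtain ⟨a, ha⟩ := hP g
  have h1 := key (p ^ a)
  rw [ha] at h1
  simp only [one_mul, inv_one, mul_one] at h1
  rw [pow_inj_mod] at h1
  obtain ⟨k, hk⟩ := IsPGroup.iff_orderOf.mp hP y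
  have hk0 : k ≠ 0 := by
    rintro rfl
    rw [pow_zero, orderOf_eq_one_iff] at hk
    exact hy hk
  have h2 : j ^ p ^ a ≡ l ^ p ^ a [MOD p] := by
    have : j ^ p ^ a ≡ l ^ p ^ a [MOD orderOf y] := h1
    exact this.of_dvd (by rw [hk]; exact dvd_pow_self p hk0)
  have h3 : ((j ^ p ^ a : ℕ) : ZMod p) = ((l ^ p ^ a : ℕ) : ZMod p) :=
    (ZMod.natCast_eq_natCast_iff _ _ _).mpr h2
  push_cast at h3
  have h4 : ∀ b : ZMod p, b ^ p ^ a = b := by
    intro b
    exact ZMod.pow_card_pow b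
  rw [h4, h4, ZMod.natCast_eq_natCast_iff] at h3
  have h5 := h3
  unfold Nat.ModEq at h5
  rwa [Nat.mod_eq_of_lt hj, Nat.mod_eq_of_lt hl] at h5

/-- The components whose second projection is not abelian: their number is at most
`k (k - 1) / (p - 1)`, `k` the number of conjugacy classes of `P` inside `P'`. -/
theorem card_nonabelian_le {p : ℕ} [Fact p.Prime] [Finite P] (hP : IsPGroup p P)
    (𝒰 : Finset (Subgroup (P × P))) (h : IsPCP (Nat.card P) 𝒰) :
    (𝒰.filter (fun U => ¬ ∀ a ∈ U, ∀ b ∈ U, a.2 * b.2 = b.2 * a.2)).card * (p - 1) ≤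
      Nat.card {c : ConjClasses P // c.carrier ⊆ (commutator P : Set P)} *
        (Nat.card {c : ConjClasses P // c.carrier ⊆ (commutator P : Set P)} - 1) := by
  classical
  set R := 𝒰.filter (fun U => ¬ ∀ a ∈ U, ∀ b ∈ U, a.2 * b.2 = b.2 * a.2) with hR
  -- the witnesses
  have hw : ∀ U : R, ∃ w : P × P, w ∈ U.1 ∧ w.1 ∈ commutator P ∧ w.2 ∈ commutator P ∧
      w.2 ≠ 1 := by
    rintro ⟨U, hU⟩
    rw [hR, Finset.mem_filter] at hU
    obtain ⟨_, hU2⟩ := hU
    push Not at hU2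
    obtain ⟨a, ha, b, hb, hab⟩ := hU2
    refine ⟨a * b * a⁻¹ * b⁻¹, ?_, ?_, ?_, ?_⟩
    · exact U.mul_mem (U.mul_mem (U.mul_mem ha hb) (U.inv_mem ha)) (U.inv_mem hb)
    · exact Subgroup.commutator_mem_commutator (Subgroup.mem_top a.1) (Subgroup.mem_top b.1)
    · exact Subgroup.commutator_mem_commutator (Subgroup.mem_top a.2) (Subgroup.mem_top b.2)
    · intro hc
      have hc' : a.2 * b.2 * a.2⁻¹ * b.2⁻¹ = 1 := hc
      apply hab
      rw [mul_inv_eq_one, mul_inv_eq_iff_eq_mul] at hc'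
      exact hc'
  choose w hwU hw1 hw2 hw3 using hw
  have hcl : ∀ x ∈ commutator P, (ConjClasses.mk x).carrier ⊆ (commutator P : Set P) := by
    intro x hx y hy
    rw [ConjClasses.mem_carrier_iff_mk_eq, ConjClasses.mk_eq_mk_iff_isConj] at hy
    obtain ⟨g, hg⟩ := isConj_iff.mp hy.symm
    rw [← hg]
    exact (inferInstance : (commutator P).Normal).conj_mem x hx g
  let C := {c : ConjClasses P // c.carrier ⊆ (commutator P : Set P)}
  have : Fintype C := Fintype.ofFinite _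
  let one : C := ⟨ConjClasses.mk 1, hcl 1 (one_mem _)⟩
  have hp := (Fact.out : p.Prime)
  have hp0 := hp.pos
  have hnepow : ∀ (U : R) (j : Fin (p - 1)), (w U).2 ^ ((j : ℕ) + 1) ≠ 1 := by
    intro U j hc
    have h1 : IsConj ((w U).2 ^ ((j : ℕ) + 1)) ((w U).2 ^ 0) := by rw [hc, pow_zero]
    have := pow_conj hP (hw3 U) (by have := j.2; omega) hp0 h1
    omega
  let f : R × Fin (p - 1) → C × {c : C // c ≠ one} := fun x =>
    (⟨ConjClasses.mk ((w x.1).1 ^ ((x.2 : ℕ) + 1)), hcl _ (pow_mem (hw1 x.1) _)⟩,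
     ⟨⟨ConjClasses.mk ((w x.1).2 ^ ((x.2 : ℕ) + 1)), hcl _ (pow_mem (hw2 x.1) _)⟩, by
        intro hc
        rw [Subtype.mk.injEq, ConjClasses.mk_eq_mk_iff_isConj, isConj_one_left] at hc
        exact hnepow x.1 x.2 hc⟩)
  have hf : Function.Injective f := by
    rintro ⟨U, j⟩ ⟨V, l⟩ heq
    have h1 : IsConj ((w U).1 ^ ((j : ℕ) + 1)) ((w V).1 ^ ((l : ℕ) + 1)) := by
      rw [← ConjClasses.mk_eq_mk_iff_isConj]
      exact congrArg (fun x => x.1.1) heq
    have h2 : IsConj ((w U).2 ^ ((j : ℕ) + 1)) ((w V).2 ^ ((l : ℕ) + 1)) := by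
      rw [← ConjClasses.mk_eq_mk_iff_isConj]
      exact congrArg (fun x => x.2.1.1) heq
    have hUV : U = V := by
      by_contra hne
      have hne' : U.1 ≠ V.1 := fun e => hne (Subtype.ext e)
      have hU := (Finset.mem_filter.mp U.2).1
      have hV := (Finset.mem_filter.mp V.2).1
      have hconj : IsConj (w U ^ ((j : ℕ) + 1)) (w V ^ ((l : ℕ) + 1)) := by
        obtain ⟨g1, hg1⟩ := isConj_iff.mp h1
        obtain ⟨g2, hg2⟩ := isConj_iff.mp h2
        rw [isConj_iff]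
        exact ⟨(g1, g2), Prod.ext hg1 hg2⟩
      have := conj_inf h hU hV hne' (pow_mem (hwU U) _) (pow_mem (hwU V) _) hconj
      apply hnepow U j
      rw [← Prod.pow_snd, this]; rfl
    subst hUV
    have := pow_conj hP (hw3 U) (by have := j.2; omega) (by have := l.2; omega) h2
    rw [Prod.mk.injEq]
    exact ⟨rfl, Fin.ext (by omega)⟩
  have hcard := Fintype.card_le_of_injective f hf
  rw [Fintype.card_prod, Fintype.card_prod, Fintype.card_coe, Fintype.card_fin] at hcard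
  have h1 : Fintype.card {c : C // c ≠ one} = Fintype.card C - 1 := Set.card_ne_eq one
  rw [h1, ← Nat.card_eq_fintype_card] at hcard
  exact hcard

/-- **Universal bound** -/
theorem universal_bound {p : ℕ} [Fact p.Prime] [Finite P] (hP : IsPGroup p P)
    (hna : ∃ a b : P, a * b ≠ b * a) :
    T (P × P) ≤ Nat.sqrt (Subgroup.center P).index + 1 +
      Nat.card {c : ConjClasses P // c.carrier ⊆ (commutator P : Set P)} *
        (Nat.card {c : ConjClasses P // c.carrier ⊆ (commutator P : Set P)} - 1) / (p - 1) := by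
  classical
  have hp := (Fact.out : p.Prime).two_le
  apply T_prod_le
  intro 𝒰 h
  have h1 := card_abelian_le hna 𝒰 h
  have h2 := card_nonabelian_le hP 𝒰 h
  rw [← Nat.le_div_iff_mul_le (by omega)] at h2
  have h3 := Finset.card_filter_add_card_filter_not
    (s := 𝒰) (fun U => ∀ a ∈ U, ∀ b ∈ U, a.2 * b.2 = b.2 * a.2)
  omega

end

end Pool.Agent.Helper19.PCP
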