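import Pool.Agent.Helper19.PCPVanish

namespace Pool.Agent.Helper19.PCP

open scoped Classical
open Module Pool.Agent.Helper19.PCPRep

section

variable {P : Type} [Group P] [Finite P]

/-- the inclusion `Z(P) × Z(P) → P × P` -/
def inc (P : Type) [Group P] : (Subgroup.center P × Subgroup.center P) →* (P × P) :=
  MonoidHom.prodMap (Subgroup.center P).subtype (Subgroup.center P).subtype

open scoped IsMulCommutative in
/-- If `K ≤ Z × Z` contains neither `Z × 1` nor `1 × Z`, there is a linear character of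
`Z × Z`, trivial on `K`, and nontrivial on both factors. -/
theorem exists_char {Z : Type} [CommGroup Z] [Finite Z] (K : Subgroup (Z × Z))
    (h1 : ∃ z : Z, (z, 1) ∉ K) (h2 : ∃ z : Z, (1, z) ∉ K) :
    ∃ lam : (Z × Z) →* ℂˣ, (∀ k ∈ K, lam k = 1) ∧ (∃ z, lam (z, 1) ≠ 1) ∧
      (∃ z, lam (1, z) ≠ 1) := by
  obtain ⟨z₁, hz₁⟩ := h1
  obtain ⟨z₂, hz₂⟩ := h2
  have key : ∀ x : Z × Z, x ∉ K → ∃ lam : (Z × Z) →* ℂˣ, (∀ k ∈ K, lam k = 1) ∧ lam x ≠ 1 := by
    intro x hx
    have hx' : (QuotientGroup.mk x : (Z × Z) ⧸ K) ≠ 1 := by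
      rwa [ne_eq, QuotientGroup.eq_one_iff]
    obtain ⟨mu, hmu⟩ :=
      CommGroup.exists_apply_ne_one_of_hasEnoughRootsOfUnity ((Z × Z) ⧸ K) ℂ hx'
    refine ⟨mu.comp (QuotientGroup.mk' K), ?_, hmu⟩
    intro k hk
    have : (QuotientGroup.mk' K) k = 1 := by
      rw [QuotientGroup.mk'_apply, QuotientGroup.eq_one_iff]; exact hk
    rw [MonoidHom.comp_apply, this, map_one]
  obtain ⟨a, haK, ha⟩ := key _ hz₁
  obtain ⟨b, hbK, hb⟩ := key _ hz₂
  by_cases ha2 : ∃ z, a (1, z) ≠ 1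
  · exact ⟨a, haK, ⟨z₁, ha⟩, ha2⟩
  by_cases hb1 : ∃ z, b (z, 1) ≠ 1
  · exact ⟨b, hbK, hb1, ⟨z₂, hb⟩⟩
  push Not at ha2 hb1
  refine ⟨a * b, ?_, ⟨z₁, ?_⟩, ⟨z₂, ?_⟩⟩
  · intro k hk
    rw [MonoidHom.mul_apply, haK k hk, hbK k hk, one_mul]
  · rw [MonoidHom.mul_apply, hb1 z₁, mul_one]; exact ha
  · rw [MonoidHom.mul_apply, ha2 z₂, one_mul]; exact hb

open scoped IsMulCommutative in
/-- Every subgroup of `P × P` of order `|P|` meets `Z(P) × Z(P)` in at least `|Z(P)|` elements,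
if `(P, Z(P))` is a Camina pair. -/
theorem camina_card (hcam : ∀ g, g ∉ Subgroup.center P → ∀ z ∈ Subgroup.center P, IsConj g (g * z))
    (U : Subgroup (P × P)) (hU : Nat.card U = Nat.card P) :
    Nat.card (Subgroup.center P) ≤
      Nat.card (U ⊓ (Subgroup.center P).prod (Subgroup.center P) : Subgroup (P × P)) := by
  classical
  set Z := Subgroup.center P with hZ
  have : Fintype U := Fintype.ofFinite U
  have : Fintype (P × P) := Fintype.ofFinite _
  let K : Subgroup (Z × Z) := U.comap (inc P)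
  have hKcard : Nat.card K = Nat.card (U ⊓ Z.prod Z : Subgroup (P × P)) := by
    refine Nat.card_congr (Equiv.ofBijective
      (fun x : K => (⟨inc P x.1, x.2, ⟨x.1.1.2, x.1.2.2⟩⟩ : (U ⊓ Z.prod Z : Subgroup (P × P))))
      ⟨?_, ?_⟩)
    · rintro ⟨⟨⟨a, ha⟩, ⟨b, hb⟩⟩, hx⟩ ⟨⟨⟨a', ha'⟩, ⟨b', hb'⟩⟩, hx'⟩ heq
      have := congrArg Subtype.val heq
      simp only [inc, MonoidHom.prodMap, MonoidHom.prod_apply, MonoidHom.comp_apply] at this
      have h1 := congrArg Prod.fst this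
      have h2 := congrArg Prod.snd this
      simp at h1 h2
      subst h1 h2
      rfl
    · rintro ⟨⟨a, b⟩, hU', hZ'⟩
      exact ⟨⟨(⟨a, hZ'.1⟩, ⟨b, hZ'.2⟩), hU'⟩, rfl⟩
  by_cases h1 : ∃ z : Z, (z, (1 : Z)) ∉ K
  swap
  · push Not at h1
    rw [← hKcard]
    exact Nat.card_le_card_of_injective (fun z : Z => (⟨(z, 1), h1 z⟩ : K)) (by
      intro a b hab
      exact congrArg (fun x => x.1.1) hab)
  by_cases h2 : ∃ z : Z, ((1 : Z), z) ∉ K
  swap
  · push Not at h2
    rw [← hKcard]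
    exact Nat.card_le_card_of_injective (fun z : Z => (⟨(1, z), h2 z⟩ : K)) (by
      intro a b hab
      exact congrArg (fun x => x.1.2) hab)
  obtain ⟨lam, hlamK, ⟨z₁, hz₁⟩, ⟨z₂, hz₂⟩⟩ := exists_char K h1 h2
  let l₁ : Z →* ℂˣ := lam.comp (MonoidHom.inl Z Z)
  let l₂ : Z →* ℂˣ := lam.comp (MonoidHom.inr Z Z)
  obtain ⟨V, _, _, _, ρ, hρ, hposV, hleV⟩ := exists_rep l₁
  obtain ⟨W, _, _, _, σ, hσ, hposW, hleW⟩ := exists_rep l₂
  obtain ⟨m, hm⟩ := sum_char ρ σ U
  have hvan₁ : ∀ g, g ∉ Z → ρ.character g = 0 := by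
    intro g hg
    refine char_eq_zero ρ (c := ((l₁ z₁ : ℂˣ) : ℂ)) ?_ (hρ z₁) (hcam g hg z₁ z₁.2)
    intro h; exact hz₁ (Units.ext h)
  have hvan₂ : ∀ g, g ∉ Z → σ.character g = 0 := by
    intro g hg
    refine char_eq_zero σ (c := ((l₂ z₂ : ℂˣ) : ℂ)) ?_ (hσ z₂) (hcam g hg z₂ z₂.2)
    intro h; exact hz₂ (Units.ext h)
  -- the value of the product of the characters on `U`
  have hval : ∀ u : U, ρ.character u.1.1 * σ.character u.1.2 =
      if (u : P × P) ∈ Z.prod Z then ((finrank ℂ V * finrank ℂ W : ℕ) : ℂ) else 0 := by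
    intro u
    by_cases hu : (u : P × P) ∈ Z.prod Z
    · rw [if_pos hu]
      let k : Z × Z := (⟨u.1.1, hu.1⟩, ⟨u.1.2, hu.2⟩)
      have hk : k ∈ K := u.2
      have e1 : ρ.character u.1.1 = ((l₁ k.1 : ℂˣ) : ℂ) * finrank ℂ V := by
        unfold Representation.character
        have := hρ k.1
        rw [show ρ u.1.1 = _ from this, map_smul, LinearMap.trace_id, smul_eq_mul]
      have e2 : σ.character u.1.2 = ((l₂ k.2 : ℂˣ) : ℂ) * finrank ℂ W := by
        unfold Representation.character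
        have := hσ k.2
        rw [show σ u.1.2 = _ from this, map_smul, LinearMap.trace_id, smul_eq_mul]
      have e3 : ((l₁ k.1 : ℂˣ) : ℂ) * ((l₂ k.2 : ℂˣ) : ℂ) = 1 := by
        rw [← Units.val_mul]
        have : l₁ k.1 * l₂ k.2 = lam k := by
          simp only [l₁, l₂, MonoidHom.comp_apply, MonoidHom.inl_apply, MonoidHom.inr_apply]
          rw [← map_mul]
          congr 1
          ext <;> simp
        rw [this, hlamK k hk]; rfl
      rw [e1, e2]
      push_cast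
      linear_combination (finrank ℂ V * finrank ℂ W : ℂ) * e3
    · rw [if_neg hu]
      have : u.1.1 ∉ Z ∨ u.1.2 ∉ Z := by
        by_contra hc
        push Not at hc
        exact hu ⟨hc.1, hc.2⟩
      rcases this with h | h
      · rw [hvan₁ _ h, zero_mul]
      · rw [hvan₂ _ h, mul_zero]
  simp_rw [hval] at hm
  rw [← Finset.sum_filter, Finset.sum_const, nsmul_eq_mul, hU] at hm
  have hcardF : (Finset.univ.filter (fun u : U => (u : P × P) ∈ Z.prod Z)).card =
      Nat.card (U ⊓ Z.prod Z : Subgroup (P × P)) := by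
    rw [Nat.card_eq_fintype_card, ← Fintype.card_subtype]
    refine Fintype.card_congr ⟨fun x => ⟨x.1.1, x.1.2, x.2⟩, fun x => ⟨⟨x.1, x.2.1⟩, x.2.2⟩,
      fun _ => rfl, fun _ => rfl⟩
  rw [hcardF] at hm
  set κ := Nat.card (U ⊓ Z.prod Z : Subgroup (P × P)) with hκ
  have hm' : κ * (finrank ℂ V * finrank ℂ W) = m * Nat.card P := by exact_mod_cast hm
  have hκpos : 0 < κ := Nat.card_pos
  have hm0 : m ≠ 0 := by
    rintro rfl
    rw [zero_mul] at hm'
    have := Nat.mul_pos hκpos (Nat.mul_pos hposV hposW)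
    omega
  have h5 : Nat.card P ≤ κ * (finrank ℂ V * finrank ℂ W) := by
    rw [hm']; exact Nat.le_mul_of_pos_left _ (Nat.pos_of_ne_zero hm0)
  have h6 : Nat.card Z * Z.index = Nat.card P := Subgroup.card_mul_index _
  have h7 : finrank ℂ V * finrank ℂ W ≤ Z.index := by
    have : (finrank ℂ V * finrank ℂ W) ^ 2 ≤ Z.index ^ 2 := by
      rw [mul_pow, pow_two Z.index]; exact Nat.mul_le_mul hleV hleW
    exact (Nat.pow_le_pow_iff_left two_ne_zero).mp this
  have h8 : 0 < Z.index := by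
    rw [Nat.pos_iff_ne_zero]; exact Subgroup.index_ne_zero_of_finite
  have h9 : Nat.card Z * Z.index ≤ κ * Z.index := by
    rw [h6]; exact h5.trans (Nat.mul_le_mul_left _ h7)
  exact Nat.le_of_mul_le_mul_right h9 h8

/-- **Theorem** (Camina pairs `(P, Z(P))`) -/
theorem camina_bound [Nontrivial (Subgroup.center P)]
    (hcam : ∀ g, g ∉ Subgroup.center P → ∀ z ∈ Subgroup.center P, IsConj g (g * z)) :
    T (P × P) ≤ Nat.card (Subgroup.center P) + 1 := by
  apply T_prod_le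
  intro 𝒰 h
  have h1 := card_mul_le 𝒰 h.2 ((Subgroup.center P).prod (Subgroup.center P))
    (Nat.card (Subgroup.center P)) (fun U hU => camina_card hcam U (h.1 U hU))
  have h2 : Nat.card ((Subgroup.center P).prod (Subgroup.center P) : Subgroup (P × P)) =
      Nat.card (Subgroup.center P) * Nat.card (Subgroup.center P) := by
    rw [← Nat.card_prod]
    exact Nat.card_congr (Subgroup.prodEquiv _ _).toEquiv
  rw [h2] at h1
  have h3 : 1 < Nat.card (Subgroup.center P) := Finite.one_lt_card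
  generalize Nat.card (Subgroup.center P) = n at *
  have h5 : n * n - 1 = (n + 1) * (n - 1) := by
    obtain ⟨m, rfl⟩ : ∃ m, n = m + 1 := ⟨n - 1, by omega⟩
    simp only [Nat.add_sub_cancel]
    have : (m + 1) * (m + 1) = (m + 1 + 1) * m + 1 := by ring
    omega
  rw [h5] at h1
  exact Nat.le_of_mul_le_mul_right h1 (by omega)

end

end Pool.Agent.Helper19.PCP
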