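import Pool.Agent.Helper19.PCPCamina

namespace Pool.Agent.Helper19.PCP

open scoped Classical

/-- The Heisenberg group `H_m(F)`: triples `(x, y, z)`, `x, y ∈ F ^ m`, `z ∈ F`, with
`(x, y, z) (x', y', z') = (x + x', y + y', z + z' + x · y')`. -/
@[ext]
structure Heis (F : Type) (m : ℕ) where
  /-- first vector -/
  x : Fin m → F
  /-- second vector -/
  y : Fin m → F
  /-- central coordinate -/
  z : F

namespace Heis

variable {F : Type} [Field F] {m : ℕ}

instance : Mul (Heis F m) :=
  ⟨fun a b => ⟨a.x + b.x, a.y + b.y, a.z + b.z + a.x ⬝ᵥ b.y⟩⟩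

instance : One (Heis F m) := ⟨⟨0, 0, 0⟩⟩

instance : Inv (Heis F m) := ⟨fun a => ⟨-a.x, -a.y, -a.z + a.x ⬝ᵥ a.y⟩⟩

@[simp] theorem mul_x (a b : Heis F m) : (a * b).x = a.x + b.x := rfl
@[simp] theorem mul_y (a b : Heis F m) : (a * b).y = a.y + b.y := rfl
@[simp] theorem mul_z (a b : Heis F m) : (a * b).z = a.z + b.z + a.x ⬝ᵥ b.y := rfl
@[simp] theorem one_x : (1 : Heis F m).x = 0 := rfl
@[simp] theorem one_y : (1 : Heis F m).y = 0 := rfl
@[simp] theorem one_z : (1 : Heis F m).z = 0 := rfl
@[simp] theorem inv_x (a : Heis F m) : (a⁻¹).x = -a.x := rfl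
@[simp] theorem inv_y (a : Heis F m) : (a⁻¹).y = -a.y := rfl
@[simp] theorem inv_z (a : Heis F m) : (a⁻¹).z = -a.z + a.x ⬝ᵥ a.y := rfl

instance : Group (Heis F m) :=
  Group.ofLeftAxioms
    (by
      intro a b c
      ext i
      · simp [add_assoc]
      · simp [add_assoc]
      · simp only [mul_z, mul_x, mul_y, add_dotProduct, dotProduct_add]; ring)
    (by
      intro a
      ext i <;> simp)
    (by
      intro a
      ext i <;> simp)

/-- the underlying set -/
def equiv (F : Type) (m : ℕ) : Heis F m ≃ (Fin m → F) × (Fin m → F) × F where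
  toFun a := (a.x, a.y, a.z)
  invFun a := ⟨a.1, a.2.1, a.2.2⟩
  left_inv _ := rfl
  right_inv _ := rfl

instance [Finite F] : Finite (Heis F m) := Finite.of_equiv _ (equiv F m).symm

theorem mem_center (a : Heis F m) : a ∈ Subgroup.center (Heis F m) ↔ a.x = 0 ∧ a.y = 0 := by
  rw [Subgroup.mem_center_iff]
  constructor
  · intro h
    constructor
    · ext i
      have := congrArg Heis.z (h ⟨0, Pi.single i 1, 0⟩)
      simp at this
      simpa using this
    · ext i
      have := congrArg Heis.z (h ⟨Pi.single i 1, 0, 0⟩)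
      simp at this
      simpa using this
  · rintro ⟨hx, hy⟩ g
    ext i <;> simp [hx, hy, add_comm]

theorem card_center : Nat.card (Subgroup.center (Heis F m)) = Nat.card F := by
  refine Nat.card_congr ⟨fun a => a.1.z, fun c => ⟨⟨0, 0, c⟩, by rw [mem_center]; simp⟩, ?_, ?_⟩
  · rintro ⟨a, ha⟩
    rw [mem_center] at ha
    apply Subtype.ext
    ext i
    · simp [ha.1]
    · simp [ha.2]
    · rfl
  · intro c; rfl

theorem camina (g : Heis F m) (hg : g ∉ Subgroup.center (Heis F m)) (z : Heis F m)
    (hz : z ∈ Subgroup.center (Heis F m)) : IsConj g (g * z) := by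
  rw [mem_center] at hg hz
  rw [isConj_iff]
  by_cases hx : g.x = 0
  · have hy : g.y ≠ 0 := fun e => hg ⟨hx, e⟩
    obtain ⟨i, hi⟩ : ∃ i, g.y i ≠ 0 := by
      by_contra hc; push Not at hc; exact hy (funext hc)
    refine ⟨⟨Pi.single i (z.z / g.y i), 0, 0⟩, ?_⟩
    ext j
    · simp [hz.1]
    · simp [hz.2]
    · simp [hz.1, hz.2, hx]
      field_simp
  · obtain ⟨i, hi⟩ : ∃ i, g.x i ≠ 0 := by
      by_contra hc; push Not at hc; exact hx (funext hc)
    refine ⟨⟨0, Pi.single i (-(z.z / g.x i)), 0⟩, ?_⟩
    ext j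
    · simp [hz.1]
    · simp [hz.2]
    · simp [hz.1, hz.2]
      field_simp

/-- endomorphisms in odd characteristic -/
def endoOdd (h2 : (2 : F) ≠ 0) (d a b : F) : Heis F m →* Heis F m where
  toFun g := ⟨a • g.x + (d * b) • g.y, b • g.x + a • g.y,
    (a ^ 2 - d * b ^ 2) * g.z + (a * b * (g.x ⬝ᵥ g.x) + d * a * b * (g.y ⬝ᵥ g.y)) / 2 +
      d * b ^ 2 * (g.x ⬝ᵥ g.y)⟩
  map_one' := by ext i <;> simp
  map_mul' := by
    intro g h
    ext i
    · simp; ring
    · simp; ring
    · simp only [mul_z, mul_x, mul_y, add_dotProduct, dotProduct_add, smul_dotProduct,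
        dotProduct_smul, smul_eq_mul]
      have e1 : h.x ⬝ᵥ g.x = g.x ⬝ᵥ h.x := dotProduct_comm _ _
      have e2 : h.y ⬝ᵥ g.y = g.y ⬝ᵥ h.y := dotProduct_comm _ _
      have e3 : h.x ⬝ᵥ g.y = g.y ⬝ᵥ h.x := dotProduct_comm _ _
      rw [e1, e2, e3]
      field_simp
      ring

/-- endomorphisms in characteristic two -/
def endoEven (h2 : (2 : F) = 0) (a : F) : Heis F m →* Heis F m where
  toFun g := ⟨a • g.x, a • g.y, a ^ 2 * g.z⟩
  map_one' := by ext i <;> simp
  map_mul' := by
    intro g h
    ext i
    · simp; ring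
    · simp; ring
    · simp only [mul_z, mul_x, mul_y, smul_dotProduct, dotProduct_smul, smul_eq_mul]
      ring

theorem nontrivial : Nontrivial (Heis F m) :=
  ⟨⟨0, 0, 1⟩, 1, fun h => one_ne_zero (congrArg Heis.z h)⟩

/-- norm forms are surjective -/
theorem exists_norm [Finite F] (h2 : ringChar F ≠ 2) {d : F} (hd : d ≠ 0) (c : F) :
    ∃ a b : F, a ^ 2 - d * b ^ 2 = c := by
  have := Fintype.ofFinite F
  obtain ⟨a, b, hab⟩ := FiniteField.exists_root_sum_quadratic
    (f := Polynomial.X ^ 2 - Polynomial.C c) (g := Polynomial.C (-d) * Polynomial.X ^ 2)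
    (Polynomial.degree_X_pow_sub_C (by norm_num) _)
    (Polynomial.degree_C_mul_X_pow 2 (neg_ne_zero.mpr hd))
    (FiniteField.odd_card_of_char_ne_two h2)
  refine ⟨a, b, ?_⟩
  simp at hab
  linear_combination hab

theorem lower [Finite F] : Nat.card F + 1 ≤ T (Heis F m × Heis F m) := by
  have := Fintype.ofFinite F
  have := nontrivial (F := F) (m := m)
  rw [Nat.card_eq_fintype_card]
  by_cases hch : ringChar F = 2
  · have h2 : (2 : F) = 0 := by
      have := ringChar.Nat.cast_ringChar (R := F)
      rw [hch] at this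
      exact_mod_cast this
    apply card_add_one_le_T (fun a : F => endoEven (m := m) h2 a)
    intro a b hab g hg
    have hx := congrArg Heis.x hg
    have hy := congrArg Heis.y hg
    have hz := congrArg Heis.z hg
    simp only [endoEven, MonoidHom.coe_mk, OneHom.coe_mk] at hx hy hz
    have hab' : a - b ≠ 0 := sub_ne_zero.mpr hab
    ext i
    · have := congrFun hx i
      simp only [Pi.smul_apply, smul_eq_mul] at this
      have h3 : (a - b) * g.x i = 0 := by linear_combination this
      simpa [hab'] using h3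
    · have := congrFun hy i
      simp only [Pi.smul_apply, smul_eq_mul] at this
      have h3 : (a - b) * g.y i = 0 := by linear_combination this
      simpa [hab'] using h3
    · have h3 : (a - b) ^ 2 * g.z = 0 := by linear_combination hz - (a * b - b ^ 2) * g.z * h2
      simpa [hab'] using h3
  · have h2 : (2 : F) ≠ 0 := Ring.two_ne_zero hch
    obtain ⟨d, hd⟩ := FiniteField.exists_nonsquare hch
    have hd0 : d ≠ 0 := by
      rintro rfl; exact hd (IsSquare.zero)
    choose a b hab using fun c : F => exists_norm hch hd0 c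
    apply card_add_one_le_T (fun c : F => endoOdd (m := m) h2 d (a c) (b c))
    intro c c' hcc g hg
    have hx := congrArg Heis.x hg
    have hy := congrArg Heis.y hg
    have hz := congrArg Heis.z hg
    simp only [endoOdd, MonoidHom.coe_mk, OneHom.coe_mk] at hx hy hz
    -- the determinant of the difference
    have hdet : (a c - a c') ^ 2 - d * (b c - b c') ^ 2 ≠ 0 := by
      intro h0
      by_cases hb : b c - b c' = 0
      · rw [hb] at h0
        have ha : a c - a c' = 0 := by
          have : (a c - a c') ^ 2 = 0 := by linear_combination h0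
          exact pow_eq_zero_iff (two_ne_zero) |>.mp this
        apply hcc
        rw [← hab c, ← hab c', sub_eq_zero.mp ha, sub_eq_zero.mp hb]
      · apply hd
        refine ⟨(a c - a c') / (b c - b c'), ?_⟩
        field_simp
        linear_combination -h0
    have hxy : ∀ i, g.x i = 0 ∧ g.y i = 0 := by
      intro i
      have e1 := congrFun hx i
      have e2 := congrFun hy i
      simp only [Pi.smul_apply, Pi.add_apply, smul_eq_mul] at e1 e2
      constructor
      · have h3 : ((a c - a c') ^ 2 - d * (b c - b c') ^ 2) * g.x i = 0 := by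
          linear_combination (a c - a c') * e1 - d * (b c - b c') * e2
        simpa [hdet] using h3
      · have h3 : ((a c - a c') ^ 2 - d * (b c - b c') ^ 2) * g.y i = 0 := by
          linear_combination (a c - a c') * e2 - (b c - b c') * e1
        simpa [hdet] using h3
    have hx0 : g.x = 0 := funext fun i => (hxy i).1
    have hy0 : g.y = 0 := funext fun i => (hxy i).2
    ext i
    · rw [hx0]; rfl
    · rw [hy0]; rfl
    · rw [hx0, hy0, hab c, hab c'] at hz
      simp at hz
      rcases hz with h | h
      · exact absurd h hcc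
      · exact h

theorem exact_value [Finite F] : T (Heis F m × Heis F m) = Nat.card F + 1 := by
  apply le_antisymm _ lower
  rw [← card_center (F := F) (m := m)]
  have : Nontrivial (Subgroup.center (Heis F m)) := by
    have h : Nontrivial F := inferInstance
    rw [← Finite.one_lt_card_iff_nontrivial, card_center, Finite.one_lt_card_iff_nontrivial]
    exact h
  exact camina_bound camina

end Heis

end Pool.Agent.Helper19.PCP
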