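import Mathlib

/-!
Irreducible representations over a prescribed central character, of degree at most
`√|G : Z(G)|` (problem MP_47f3f4_co).
-/

namespace Pool.Agent.Helper19.PCPRep

open Module

section core

variable {G : Type} [Group G] [Finite G]

/-- The element `∑ λ(z)⁻¹ z` of the group algebra. -/
noncomputable def elt (lam : Subgroup.center G →* ℂˣ) : MonoidAlgebra ℂ G :=
  letI := Fintype.ofFinite (Subgroup.center G)
  ∑ z : Subgroup.center G, MonoidAlgebra.single (z : G) (((lam z)⁻¹ : ℂˣ) : ℂ)

theorem single_mul_elt (lam : Subgroup.center G →* ℂˣ) (n : Subgroup.center G) :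
    MonoidAlgebra.single (n : G) (1 : ℂ) * elt lam = ((lam n : ℂˣ) : ℂ) • elt lam := by
  classical
  let := Fintype.ofFinite (Subgroup.center G)
  unfold elt
  rw [Finset.mul_sum, Finset.smul_sum]
  apply Fintype.sum_bijective (fun z => n * z) (Group.mulLeft_bijective n)
  intro z
  rw [MonoidAlgebra.single_mul_single, one_mul, MonoidAlgebra.smul_single]
  congr 1
  rw [map_mul, mul_inv_rev, smul_eq_mul, Units.val_mul, mul_comm, mul_assoc]
  simp

theorem elt_ne_zero (lam : Subgroup.center G →* ℂˣ) : elt lam ≠ 0 := by
  classical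
  let := Fintype.ofFinite (Subgroup.center G)
  intro h
  have h1 := congrArg (fun f : MonoidAlgebra ℂ G => f.coeff 1) h
  simp only [elt, MonoidAlgebra.coeff_sum, MonoidAlgebra.coeff_zero, Finsupp.finsetSum_apply,
    MonoidAlgebra.coeff_single, Finsupp.single_apply, Finsupp.coe_zero, Pi.zero_apply] at h1
  rw [Finset.sum_eq_single (1 : Subgroup.center G)] at h1
  · simp at h1
  · intro b _ hb
    rw [if_neg]
    intro h2
    exact hb (Subtype.ext h2)
  · intro h2; exact absurd (Finset.mem_univ _) h2

theorem exists_rep (lam : Subgroup.center G →* ℂˣ) :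
    ∃ (V : Type) (_ : AddCommGroup V) (_ : Module ℂ V) (_ : FiniteDimensional ℂ V)
      (ρ : Representation ℂ G V),
      (∀ z : Subgroup.center G, ρ z = ((lam z : ℂˣ) : ℂ) • LinearMap.id) ∧ 0 < finrank ℂ V ∧
      (finrank ℂ V) ^ 2 ≤ (Subgroup.center G).index := by
  classical
  let I : Submodule (MonoidAlgebra ℂ G) (MonoidAlgebra ℂ G) := Submodule.span _ {elt lam}
  have hI : I ≠ ⊥ := by
    intro h
    rw [Submodule.span_singleton_eq_bot] at h
    exact elt_ne_zero lam h
  obtain ⟨S, hS, hSI⟩ := (IsAtomic.eq_bot_or_exists_atom_le I).resolve_left hI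
  have hsimple : IsSimpleModule (MonoidAlgebra ℂ G) S := isSimpleModule_iff_isAtom.mpr hS
  have hfin : FiniteDimensional ℂ (MonoidAlgebra ℂ G) := by
    infer_instance
  have hfinS : FiniteDimensional ℂ S := by
    infer_instance
  let ρ : Representation ℂ G S := Representation.ofModule' S
  have hρ : ∀ (g : G) (s : S), ρ g s = (MonoidAlgebra.single g (1 : ℂ)) • s := by
    intro g s
    rfl
  have hcent : ∀ z : Subgroup.center G, ρ z = ((lam z : ℂˣ) : ℂ) • LinearMap.id := by
    intro z
    ext s
    have hs : (s : MonoidAlgebra ℂ G) ∈ I := hSI s.2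
    obtain ⟨a, ha⟩ := Submodule.mem_span_singleton.mp hs
    have hcomm : MonoidAlgebra.single (z : G) (1 : ℂ) * a = a * MonoidAlgebra.single (z : G) 1 := by
      have hz := Subgroup.mem_center_iff.mp z.2
      clear ha
      induction a using MonoidAlgebra.induction_on with
      | of g =>
        rw [MonoidAlgebra.of_apply, MonoidAlgebra.single_mul_single,
          MonoidAlgebra.single_mul_single, hz g]
      | add f g hf hg => rw [mul_add, add_mul, hf, hg]
      | smul r f hf => rw [mul_smul_comm, smul_mul_assoc, hf]
    rw [hρ]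
    have h1 : ((MonoidAlgebra.single (z : G) (1 : ℂ) • s : S) : MonoidAlgebra ℂ G)
        = MonoidAlgebra.single (z : G) (1 : ℂ) * (s : MonoidAlgebra ℂ G) := rfl
    rw [h1, ← ha, smul_eq_mul, ← mul_assoc, hcomm, mul_assoc, single_mul_elt, mul_smul_comm,
      ← smul_eq_mul, ha]
    rfl
  refine ⟨S, inferInstance, inferInstance, hfinS, ρ, hcent, ?_, ?_⟩
  · rw [Module.finrank_pos_iff]
    exact IsSimpleModule.nontrivial (MonoidAlgebra ℂ G) S
  · -- the images of the group elements span `End V`
    have hsurj : ∀ g : S →ₗ[ℂ] S, ∃ r : MonoidAlgebra ℂ G, ∀ m : S, g m = r • m := by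
      intro g
      have hend := IsSimpleModule.algebraMap_end_bijective_of_isAlgClosed
        (A := MonoidAlgebra ℂ G) (V := S) ℂ
      let F : Module.End (Module.End (MonoidAlgebra ℂ G) S) S :=
        { toFun := g
          map_add' := g.map_add
          map_smul' := by
            intro φ m
            obtain ⟨c, rfl⟩ := hend.2 φ
            simp only [RingHom.id_apply]
            have h1 : ∀ m : S, (algebraMap ℂ (Module.End (MonoidAlgebra ℂ G) S) c) • m = c • m := by
              intro m
              rw [Module.End.smul_def, Module.algebraMap_end_apply]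
            rw [h1, h1, map_smul] }
      let b := Module.finBasis ℂ S
      obtain ⟨r, hr⟩ := jacobson_density F (Finset.univ.image b)
      refine ⟨r, ?_⟩
      have h2 : g = (Algebra.lsmul ℂ ℂ S r : S →ₗ[ℂ] S) := by
        apply b.ext
        intro i
        have := hr (b i) (Finset.mem_image_of_mem _ (Finset.mem_univ i))
        exact this
      intro m
      rw [h2]
      rfl
    let L : ((G ⧸ Subgroup.center G) → ℂ) →ₗ[ℂ] (S →ₗ[ℂ] S) :=
      { toFun := fun c => ∑ᶠ q, c q • ρ q.out
        map_add' := by
          intro c d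
          have : Fintype (G ⧸ Subgroup.center G) := Fintype.ofFinite _
          simp only [finsum_eq_sum_of_fintype, Pi.add_apply, add_smul, Finset.sum_add_distrib]
        map_smul' := by
          intro r c
          have : Fintype (G ⧸ Subgroup.center G) := Fintype.ofFinite _
          simp only [finsum_eq_sum_of_fintype, Pi.smul_apply, smul_assoc, Finset.smul_sum,
            RingHom.id_apply] }
    have hmem : ∀ g : G, ρ g ∈ LinearMap.range L := by
      intro g
      have hq : ((QuotientGroup.mk g : G ⧸ Subgroup.center G).out)⁻¹ * g ∈ Subgroup.center G := by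
        rw [← QuotientGroup.eq]
        exact Quotient.out_eq' _
      let n : Subgroup.center G := ⟨_, hq⟩
      refine ⟨Pi.single (QuotientGroup.mk g) ((lam n : ℂˣ) : ℂ), ?_⟩
      have : Fintype (G ⧸ Subgroup.center G) := Fintype.ofFinite _
      simp only [L, LinearMap.coe_mk, AddHom.coe_mk, finsum_eq_sum_of_fintype]
      rw [Finset.sum_eq_single (QuotientGroup.mk g)]
      · rw [Pi.single_eq_same]
        have h3 : ρ g = ρ (QuotientGroup.mk g : G ⧸ Subgroup.center G).out * ρ n := by
          rw [← map_mul]
          congr 1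
          simp [n]
        rw [h3, hcent n]
        ext s
        simp
      · intro b _ hb
        rw [Pi.single_eq_of_ne hb, zero_smul]
      · intro h; exact absurd (Finset.mem_univ _) h
    have hL : LinearMap.range L = ⊤ := by
      rw [eq_top_iff]
      intro g _
      obtain ⟨r, hr⟩ := hsurj g
      have : g = (Algebra.lsmul ℂ ℂ S r : S →ₗ[ℂ] S) := by
        ext m
        rw [hr m]; rfl
      rw [this]
      clear this hr
      induction r using MonoidAlgebra.induction_on with
      | of g => exact hmem g
      | add f g hf hg => rw [map_add]; exact Submodule.add_mem _ hf hg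
      | smul r f hf => rw [map_smul]; exact Submodule.smul_mem _ _ hf
    have hfr : finrank ℂ (S →ₗ[ℂ] S) ≤ finrank ℂ ((G ⧸ Subgroup.center G) → ℂ) :=
      LinearMap.finrank_le_finrank_of_surjective (f := L) (LinearMap.range_eq_top.mp hL)
    have : Fintype (G ⧸ Subgroup.center G) := Fintype.ofFinite _
    rw [Module.finrank_linearMap, Module.finrank_fintype_fun_eq_card,
      ← Nat.card_eq_fintype_card] at hfr
    rw [pow_two]
    exact hfr

end core

section vanish

variable {G : Type} [Group G]

/-- If `g` is conjugate to `g z`, `z` acting by a scalar `≠ 1`, the character vanishes at `g`. -/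
theorem char_eq_zero {V : Type} [AddCommGroup V] [Module ℂ V] [FiniteDimensional ℂ V]
    (ρ : Representation ℂ G V) {z g : G} {c : ℂ} (hc : c ≠ 1) (hz : ρ z = c • LinearMap.id)
    (hg : IsConj g (g * z)) : ρ.character g = 0 := by
  obtain ⟨h, hh⟩ := isConj_iff.mp hg
  have h1 : ρ.character (g * z) = c * ρ.character g := by
    unfold Representation.character
    rw [map_mul, hz]
    have : ρ g * c • (LinearMap.id : V →ₗ[ℂ] V) = c • ρ g := by
      ext v; simp
    rw [this, map_smul, smul_eq_mul]
  have h2 : ρ.character (g * z) = ρ.character g := by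
    rw [← hh, Representation.char_conj]
  rw [h2] at h1
  have h3 : (c - 1) * ρ.character g = 0 := by linear_combination -h1
  rcases mul_eq_zero.mp h3 with h4 | h4
  · exact absurd (sub_eq_zero.mp h4) hc
  · exact h4

/-- The character sum over a subgroup of `G × G` is a natural multiple of its order. -/
theorem sum_char [Finite G] {V W : Type} [AddCommGroup V] [Module ℂ V] [FiniteDimensional ℂ V]
    [AddCommGroup W] [Module ℂ W] [FiniteDimensional ℂ W]
    (ρ : Representation ℂ G V) (σ : Representation ℂ G W) (U : Subgroup (G × G)) [Fintype U] :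
    ∃ m : ℕ, ∑ u : U, ρ.character u.1.1 * σ.character u.1.2 = m * Nat.card U := by
  let τ : Representation ℂ U (TensorProduct ℂ V W) :=
    Representation.tprod (ρ.comp ((MonoidHom.fst G G).comp U.subtype))
      (σ.comp ((MonoidHom.snd G G).comp U.subtype))
  have hcard : (Nat.card U : ℂ) ≠ 0 := Nat.cast_ne_zero.mpr Nat.card_pos.ne'
  have : Invertible (Nat.card U : ℂ) := invertibleOfNonzero hcard
  refine ⟨finrank ℂ (Representation.invariants τ), ?_⟩
  rw [← Representation.card_inv_mul_sum_char_eq_finrank τ]
  have h1 : ∀ u : U, τ.character u = ρ.character u.1.1 * σ.character u.1.2 := by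
    intro u
    simp only [τ, Representation.char_tensor, Pi.mul_apply]
    rfl
  simp_rw [h1]
  field_simp

end vanish

end Pool.Agent.Helper19.PCPRep
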