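import Pool.Agent.Helper19.PCPRep
import Pool.Agent.Helper19.PCPBound

namespace Pool.Agent.Helper19.PCP

open scoped Classical
open Module Pool.Agent.Helper19.PCPRep

section

variable {P : Type} [Group P] [Finite P]

open scoped IsMulCommutative in
/-- Every subgroup of `P × P` of order `|P|` meets `N × N` nontrivially, if every `g ∉ N` is
conjugate to `g z`, for some fixed central `z ≠ 1`. -/
theorem exists_mem {z : P} (hz : z ∈ Subgroup.center P) (hz1 : z ≠ 1) (N : Subgroup P)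
    (hN : ∀ g, g ∉ N → IsConj g (g * z)) (U : Subgroup (P × P)) (hU : Nat.card U = Nat.card P) :
    ∃ u ∈ U, u ≠ 1 ∧ u.1 ∈ N ∧ u.2 ∈ N := by
  have hzz : (⟨z, hz⟩ : Subgroup.center P) ≠ 1 := by
    intro h; exact hz1 (congrArg Subtype.val h)
  obtain ⟨lam, hlam⟩ :=
    CommGroup.exists_apply_ne_one_of_hasEnoughRootsOfUnity (Subgroup.center P) ℂ hzz
  obtain ⟨V, _, _, _, ρ, hρ, hpos, hle⟩ := exists_rep lam
  by_contra hcon
  push Not at hcon
  have : Fintype U := Fintype.ofFinite U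
  obtain ⟨m, hm⟩ := sum_char ρ ρ U
  have hc : ((lam ⟨z, hz⟩ : ℂˣ) : ℂ) ≠ 1 := by
    intro h; exact hlam (Units.ext h)
  have hvan : ∀ g, g ∉ N → ρ.character g = 0 := by
    intro g hg
    exact char_eq_zero ρ hc (hρ ⟨z, hz⟩) (hN g hg)
  rw [Finset.sum_eq_single (1 : U)] at hm
  · have h1 : ((1 : U) : P × P).1 = 1 := rfl
    have h2 : ((1 : U) : P × P).2 = 1 := rfl
    rw [h1, h2, Representation.char_one, hU] at hm
    have h3 : finrank ℂ V * finrank ℂ V = m * Nat.card P := by exact_mod_cast hm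
    have h4 : m ≠ 0 := by
      rintro rfl
      rw [zero_mul, mul_self_eq_zero] at h3
      omega
    have h5 : Nat.card P ≤ (Subgroup.center P).index := by
      calc Nat.card P ≤ m * Nat.card P := Nat.le_mul_of_pos_left _ (Nat.pos_of_ne_zero h4)
        _ = (finrank ℂ V) ^ 2 := by rw [← h3, pow_two]
        _ ≤ _ := hle
    have h6 : Nat.card (Subgroup.center P) * (Subgroup.center P).index = Nat.card P :=
      Subgroup.card_mul_index _
    have h7 : 1 < Nat.card (Subgroup.center P) := by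
      have : Nontrivial (Subgroup.center P) := ⟨_, _, hzz⟩
      exact Finite.one_lt_card
    have h8 : 0 < (Subgroup.center P).index := by
      rw [Nat.pos_iff_ne_zero]; exact Subgroup.index_ne_zero_of_finite
    nlinarith
  · intro u _ hu
    have hu1 : (u : P × P) ≠ 1 := fun h => hu (Subtype.ext h)
    by_cases h1 : (u : P × P).1 ∈ N
    · rw [hvan _ (hcon u u.2 hu1 h1), mul_zero]
    · rw [hvan _ h1, zero_mul]
  · intro h; exact absurd (Finset.mem_univ _) h

/-- counting classes of elements of order `p` -/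
theorem card_mul_classes_le {p : ℕ} [Fact p.Prime] (hP : IsPGroup p P)
    (𝒰 : Finset (Subgroup (P × P))) (h : IsPCP (Nat.card P) 𝒰) (C : Set (ConjClasses P))
    (hC : ∀ U ∈ 𝒰, ∃ u ∈ U, u ≠ 1 ∧ ∀ j, ConjClasses.mk (u.1 ^ j) ∈ C ∧
      ConjClasses.mk (u.2 ^ j) ∈ C) (h1C : ConjClasses.mk 1 ∈ C) :
    𝒰.card * (p - 1) ≤ (Nat.card C) ^ 2 - 1 := by
  classical
  have hw : ∀ U : 𝒰, ∃ u ∈ U.1, u ≠ 1 ∧ ∀ j : ℕ, ConjClasses.mk (u.1 ^ j) ∈ C ∧
      ConjClasses.mk (u.2 ^ j) ∈ C := fun U => hC U.1 U.2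
  choose w hwU hw1 hwC using hw
  have : Fintype C := Fintype.ofFinite _
  let one : C × C := (⟨ConjClasses.mk 1, h1C⟩, ⟨ConjClasses.mk 1, h1C⟩)
  have hp := (Fact.out : p.Prime)
  have hp0 := hp.pos
  -- distinct powers are not conjugate
  have hpow : ∀ (x : P × P), x ≠ 1 → ∀ j l : ℕ, j < p → l < p → IsConj (x.1 ^ j) (x.1 ^ l) →
      IsConj (x.2 ^ j) (x.2 ^ l) → j = l := by
    intro x hx j l hj hl h1 h2
    by_cases hx1 : x.1 = 1
    · have hx2 : x.2 ≠ 1 := fun e => hx (Prod.ext hx1 e)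
      exact pow_conj hP hx2 hj hl h2
    · exact pow_conj hP hx1 hj hl h1
  let f : 𝒰 × Fin (p - 1) → {c : C × C // c ≠ one} := fun x =>
    ⟨(⟨ConjClasses.mk ((w x.1).1 ^ ((x.2 : ℕ) + 1)), (hwC x.1 _).1⟩,
     ⟨ConjClasses.mk ((w x.1).2 ^ ((x.2 : ℕ) + 1)), (hwC x.1 _).2⟩), by
        intro hc
        have h1 : ConjClasses.mk ((w x.1).1 ^ ((x.2 : ℕ) + 1)) = ConjClasses.mk 1 :=
          congrArg (fun c => c.1.1) hc
        have h2 : ConjClasses.mk ((w x.1).2 ^ ((x.2 : ℕ) + 1)) = ConjClasses.mk 1 :=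
          congrArg (fun c => c.2.1) hc
        rw [ConjClasses.mk_eq_mk_iff_isConj] at h1 h2
        have h3 := hpow (w x.1) (hw1 x.1) ((x.2 : ℕ) + 1) 0 (by have := x.2.2; omega) hp0
          (by rw [pow_zero]; exact h1) (by rw [pow_zero]; exact h2)
        omega⟩
  have hf : Function.Injective f := by
    rintro ⟨U, j⟩ ⟨V, l⟩ heq
    have h1 : IsConj ((w U).1 ^ ((j : ℕ) + 1)) ((w V).1 ^ ((l : ℕ) + 1)) := by
      rw [← ConjClasses.mk_eq_mk_iff_isConj]
      exact congrArg (fun x => x.1.1.1) heq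
    have h2 : IsConj ((w U).2 ^ ((j : ℕ) + 1)) ((w V).2 ^ ((l : ℕ) + 1)) := by
      rw [← ConjClasses.mk_eq_mk_iff_isConj]
      exact congrArg (fun x => x.1.2.1) heq
    have hUV : U = V := by
      by_contra hne
      have hne' : U.1 ≠ V.1 := fun e => hne (Subtype.ext e)
      have hconj : IsConj (w U ^ ((j : ℕ) + 1)) (w V ^ ((l : ℕ) + 1)) := by
        obtain ⟨g1, hg1⟩ := isConj_iff.mp h1
        obtain ⟨g2, hg2⟩ := isConj_iff.mp h2
        rw [isConj_iff]
        exact ⟨(g1, g2), Prod.ext hg1 hg2⟩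
      have h3 := conj_inf h U.2 V.2 hne' (pow_mem (hwU U) _) (pow_mem (hwU V) _) hconj
      have h4 := hpow (w U) (hw1 U) ((j : ℕ) + 1) 0 (by have := j.2; omega) hp0
        (by rw [pow_zero, ← Prod.pow_fst, h3]; exact IsConj.refl _)
        (by rw [pow_zero, ← Prod.pow_snd, h3]; exact IsConj.refl _)
      omega
    subst hUV
    have := hpow (w U) (hw1 U) _ _ (by have := j.2; omega) (by have := l.2; omega) h1 h2
    rw [Prod.mk.injEq]
    exact ⟨rfl, Fin.ext (by omega)⟩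
  have hcard := Fintype.card_le_of_injective f hf
  rw [Fintype.card_prod, Fintype.card_coe, Fintype.card_fin] at hcard
  have h1 : Fintype.card {c : C × C // c ≠ one} = Fintype.card (C × C) - 1 := Set.card_ne_eq one
  rw [h1, Fintype.card_prod, ← Nat.card_eq_fintype_card, ← pow_two] at hcard
  exact hcard

/-- **Theorem** -/
theorem vanishing_bound {p : ℕ} [Fact p.Prime] (hP : IsPGroup p P)
    {z : P} (hz : z ∈ Subgroup.center P) (hz1 : z ≠ 1) (N : Subgroup P)
    (hN : ∀ g, g ∉ N → IsConj g (g * z)) :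
    T (P × P) ≤ ((Nat.card {c : ConjClasses P // ∃ x ∈ N, x ^ p = 1 ∧ ConjClasses.mk x = c}) ^ 2
      - 1) / (p - 1) := by
  have hp := (Fact.out : p.Prime).two_le
  apply T_prod_le
  intro 𝒰 h
  rw [Nat.le_div_iff_mul_le (by omega)]
  apply card_mul_classes_le hP 𝒰 h {c : ConjClasses P | ∃ x ∈ N, x ^ p = 1 ∧ ConjClasses.mk x = c}
  · intro U hU
    obtain ⟨u, huU, hu1, huN1, huN2⟩ := exists_mem hz hz1 N hN U (h.1 U hU)
    -- a power of `u` of order `p`
    obtain ⟨k, hk⟩ : ∃ k, orderOf u = p ^ k := by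
      obtain ⟨a, ha⟩ := hP u.1
      obtain ⟨b, hb⟩ := hP u.2
      have : u ^ p ^ (a + b) = 1 := by
        apply Prod.ext
        · rw [Prod.pow_fst, pow_add, pow_mul, ha, one_pow]; rfl
        · rw [Prod.pow_snd, pow_add, mul_comm, pow_mul, hb, one_pow]; rfl
      exact (Nat.dvd_prime_pow Fact.out).mp (orderOf_dvd_of_pow_eq_one this) |>.imp
        (fun k hk => hk.2)
    have hk0 : k ≠ 0 := by
      rintro rfl
      rw [pow_zero, orderOf_eq_one_iff] at hk
      exact hu1 hk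
    obtain ⟨k, rfl⟩ := Nat.exists_eq_succ_of_ne_zero hk0
    refine ⟨u ^ p ^ k, pow_mem huU _, ?_, ?_⟩
    · intro hc
      have := orderOf_dvd_of_pow_eq_one hc
      rw [hk] at this
      have h2 := Nat.le_of_dvd (pow_pos (by omega) _) this
      have h3 : p ^ k < p ^ k.succ := Nat.pow_lt_pow_right (by omega) (Nat.lt_succ_self k)
      omega
    · intro j
      have hup : u ^ p ^ (k + 1) = 1 := by rw [← hk]; exact pow_orderOf_eq_one u
      constructor
      · refine ⟨_, pow_mem (pow_mem huN1 (p ^ k)) j, ?_, rfl⟩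
        have : u.1 ^ p ^ (k + 1) = 1 := by rw [← Prod.pow_fst, hup]; rfl
        calc ((u ^ p ^ k).1 ^ j) ^ p = (u.1 ^ p ^ (k + 1)) ^ j := by
              rw [Prod.pow_fst, ← pow_mul, ← pow_mul, ← pow_mul]; congr 1; ring
          _ = 1 := by rw [this, one_pow]
      · refine ⟨_, pow_mem (pow_mem huN2 (p ^ k)) j, ?_, rfl⟩
        have : u.2 ^ p ^ (k + 1) = 1 := by rw [← Prod.pow_snd, hup]; rfl
        calc ((u ^ p ^ k).2 ^ j) ^ p = (u.2 ^ p ^ (k + 1)) ^ j := by
              rw [Prod.pow_snd, ← pow_mul, ← pow_mul, ← pow_mul]; congr 1; ring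
          _ = 1 := by rw [this, one_pow]
  · exact ⟨1, one_mem _, one_pow _, rfl⟩

end

end Pool.Agent.Helper19.PCP
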